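import Pool.Agent.Run7.h710.MT.G

/-!
# The two-step ratios of the numbers of self-avoiding walks in an arbitrary domain of `ℤ²`

For EVERY set `S` of sites, the numbers `s n S` of the `n`-step self-avoiding walks from the origin in `S`
satisfy `s (n + 2) S / s n S = μ² + O (log n / √n)`, uniformly in `S`, as long as
`s n S ≥ exp (-A log² n) μ ^ n`.  The set may depend on the end point of the walk, and a second walk,
which avoids the first one and stays in another set, may be attached at the origin.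
-/

set_option autoImplicit false

namespace Pool.Agent.Results.MP_55bc5d_pr.RatiosInAllDomains

open Filter Topology

/-- `ω` is an `n`-step self-avoiding walk on `ℤ²` from the origin. -/
def IsSAW (n : ℕ) (ω : Fin (n + 1) → ℤ × ℤ) : Prop :=
  ω 0 = (0, 0) ∧
  (∀ i : Fin n, |(ω i.succ).1 - (ω i.castSucc).1| + |(ω i.succ).2 - (ω i.castSucc).2| = 1) ∧
  Function.Injective ω

/-- `c_n`, the number of the `n`-step self-avoiding walks on `ℤ²` from the origin -/
noncomputable def c (n : ℕ) : ℕ := Nat.card {ω : Fin (n + 1) → ℤ × ℤ // IsSAW n ω}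

/-- the number of the `n`-step self-avoiding walks `ω` from the origin such that `R (ω n) (ω j)` for all
`j` -/
noncomputable def cr (R : ℤ × ℤ → ℤ × ℤ → Prop) (n : ℕ) : ℕ :=
  Nat.card {ω : Fin (n + 1) → ℤ × ℤ // IsSAW n ω ∧ ∀ j, R (ω (Fin.last n)) (ω j)}

/-- the number of the `(k + m)`-step self-avoiding walks `ω` from the origin such that `R x c (ω j)` for
all `j ≤ k` and `R' x c (ω j)` for all `j ≥ k`, where `x` is the end point and `c` the site at the
time `k` -/
noncomputable def N (R R' : ℤ × ℤ → ℤ × ℤ → ℤ × ℤ → Prop) (k m : ℕ) : ℕ :=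
  Nat.card {ω : Fin (k + m + 1) → ℤ × ℤ // IsSAW (k + m) ω ∧
    ∀ j : Fin (k + m + 1), (j.1 ≤ k → R (ω (Fin.last (k + m))) (ω ⟨k, by omega⟩) (ω j)) ∧
      (k ≤ j.1 → R' (ω (Fin.last (k + m))) (ω ⟨k, by omega⟩) (ω j))}

open Pool.Agent.Run7.h710.MT
open Pool.Agent.TH546.SAW (W mem_W card_W)

section

open scoped Classical

theorem card_sub (N : ℕ) (E : (Fin (N + 1) → ℤ × ℤ) → Prop) [DecidablePred E] :
    Nat.card {ω : Fin (N + 1) → ℤ × ℤ // IsSAW N ω ∧ E ω} = ((W N).filter E).card := by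
  have e : {ω : Fin (N + 1) → ℤ × ℤ // IsSAW N ω ∧ E ω} ≃ ((W N).filter E : Finset _) :=
    Equiv.subtypeEquivRight (fun ω => by
      rw [Finset.mem_filter, mem_W]
      exact Iff.rfl)
  rw [Nat.card_congr e, Nat.card_eq_fintype_card, Fintype.card_coe]

theorem c_eq (n : ℕ) : (c n : ℝ) = cc n := by
  rw [← cc_cn]
  rfl

theorem N_eq (R R' : ℤ × ℤ → ℤ × ℤ → ℤ × ℤ → Prop) (k m : ℕ) : N R R' k m = NN (R, R') k m := by
  rw [NN_eq (R, R') rfl (show k < k + m + 1 by omega), ← card_sub]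
  rfl

theorem cr_eq (R : ℤ × ℤ → ℤ × ℤ → Prop) (n : ℕ) :
    cr R n = NN (fun x _ v => R x v, fun _ _ _ => True) n 0 := by
  rw [NN_eq _ (Nat.add_zero n) (show n < n + 1 by omega), ← card_sub]
  unfold cr
  refine Nat.card_congr (Equiv.subtypeEquivRight fun ω => ?_)
  constructor
  · rintro ⟨h1, h2⟩
    exact ⟨h1, fun j => ⟨fun _ => h2 j, fun _ => trivial⟩⟩
  · rintro ⟨h1, h2⟩
    refine ⟨h1, fun j => (h2 j).1 ?_⟩
    have hj := j.2
    show j.1 ≤ n
    omega

theorem cc0 : cc 0 = 1 := by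
  have h1 : cc 0 ≤ 1 := cc_zero
  have h2 : (1 : ℝ) ≤ cc 0 := by
    have := H726.GB.low_sq 0
    rw [pow_zero] at this
    exact this
  linarith

end

/-- **Two-step ratios in arbitrary domains.**  The limit `μ` of `c_n ^ (1 / n)` exists, and for every `A`
there is `K` such that
(1) for every relation `R` on `ℤ²` and all `n` with `K log² (n + 2) ≤ n`: if the number `cr R n` of the
`n`-step walks `ω` with `R (ω n) (ω j)` for all `j` is at least `exp (-A log² (n + 2)) μ ^ n`, then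
`|cr R (n + 2) / cr R n - μ²| ≤ K log (n + 2) / √n`;
(2) the same for the walks `ω` with `k + m` steps, such that `R x c (ω j)` for `j ≤ k` and `R' x c (ω j)`
for `j ≥ k`, where `x` is the end point and `c = ω k`, uniformly in the ternary relations `R`, `R'` and
in `m`. -/
theorem result : ∃ μ : ℝ, 0 < μ ∧ Tendsto (fun n : ℕ => (c n : ℝ) ^ (1 / (n : ℝ))) atTop (𝓝 μ) ∧
    ∀ A : ℝ, 0 ≤ A → ∃ K : ℝ, 1 ≤ K ∧
      (∀ (R : ℤ × ℤ → ℤ × ℤ → Prop) (n : ℕ), K * Real.log (n + 2) ^ 2 ≤ n →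
        Real.exp (-(A * Real.log (n + 2) ^ 2)) * μ ^ n ≤ cr R n →
        |(cr R (n + 2) : ℝ) / cr R n - μ ^ 2| ≤ K * (Real.log (n + 2) / Real.sqrt n)) ∧
      ∀ (R R' : ℤ × ℤ → ℤ × ℤ → ℤ × ℤ → Prop) (k m : ℕ), K * Real.log (k + 2) ^ 2 ≤ k →
        Real.exp (-(A * Real.log (k + 2) ^ 2)) * (μ ^ k * c m) ≤ N R R' k m →
        |(N R R' (k + 2) m : ℝ) / N R R' k m - μ ^ 2| ≤ K * (Real.log (k + 2) / Real.sqrt k) := by
  refine ⟨H981.mu, H981.mu_pos, ?_, fun A hA => ?_⟩
  · have h := H981.tendsto_root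
    simp only [H981.cr'_eq] at h
    exact h
  · obtain ⟨K, hK, h⟩ := P1 A hA
    refine ⟨K, hK, fun R n hn hR => ?_, fun R R' k m hk hR => ?_⟩
    · simp only [cr_eq] at hR ⊢
      refine h _ n 0 hn ?_
      rw [cc0, mul_one]
      exact hR
    · simp only [N_eq] at hR ⊢
      refine h _ k m hk ?_
      rw [← c_eq]
      exact hR

end Pool.Agent.Results.MP_55bc5d_pr.RatiosInAllDomains
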